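import Pool.Agent.Q131.MC.LC

/-!
The closed form of `S_n(m,1)`.
-/

namespace Q131.MC

open Polynomial Finset

/-- Multichoose as a real function. -/
noncomputable def bb (a : ℕ) (x : ℝ) : ℝ := (∏ s ∈ range a, (x + s)) / a.factorial

theorem bb_succ (a : ℕ) (x : ℝ) : ((a : ℝ) + 1) * bb (a + 1) x = (x + a) * bb a x := by
  unfold bb
  rw [Finset.prod_range_succ, Nat.factorial_succ]
  have h1 : ((a : ℝ) + 1) ≠ 0 := by positivity
  have h2 : ((a.factorial : ℕ) : ℝ) ≠ 0 := by positivity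
  push_cast
  field_simp

theorem bb_vand (n : ℕ) (x y : ℝ) :
    ∑ p ∈ HasAntidiagonal.antidiagonal n, bb p.1 x * bb p.2 y = bb n (x + y) := by
  induction n with
  | zero => simp [bb]
  | succ n ih =>
    have h1 : ∑ p ∈ HasAntidiagonal.antidiagonal (n + 1), (p.1 : ℝ) * (bb p.1 x * bb p.2 y) =
        ∑ p ∈ HasAntidiagonal.antidiagonal n, (x + p.1) * (bb p.1 x * bb p.2 y) := by
      rw [Finset.Nat.sum_antidiagonal_succ]
      simp only [Nat.cast_zero, zero_mul, zero_add]
      refine Finset.sum_congr rfl fun p _ => ?_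
      have := bb_succ p.1 x
      push_cast
      rw [← mul_assoc, this]; ring
    have h2 : ∑ p ∈ HasAntidiagonal.antidiagonal (n + 1), (p.2 : ℝ) * (bb p.1 x * bb p.2 y) =
        ∑ p ∈ HasAntidiagonal.antidiagonal n, (y + p.2) * (bb p.1 x * bb p.2 y) := by
      rw [Finset.Nat.sum_antidiagonal_succ']
      simp only [Nat.cast_zero, zero_mul, zero_add]
      refine Finset.sum_congr rfl fun p _ => ?_
      have := bb_succ p.2 y
      push_cast
      calc ((p.2 : ℝ) + 1) * (bb p.1 x * bb (p.2 + 1) y)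
          = bb p.1 x * (((p.2 : ℝ) + 1) * bb (p.2 + 1) y) := by ring
        _ = _ := by rw [this]; ring
    have h3 : ((n : ℝ) + 1) * ∑ p ∈ HasAntidiagonal.antidiagonal (n + 1), bb p.1 x * bb p.2 y =
        (x + y + n) * ∑ p ∈ HasAntidiagonal.antidiagonal n, bb p.1 x * bb p.2 y := by
      have e1 : ((n : ℝ) + 1) * ∑ p ∈ HasAntidiagonal.antidiagonal (n + 1), bb p.1 x * bb p.2 y =
          ∑ p ∈ HasAntidiagonal.antidiagonal (n + 1), (p.1 : ℝ) * (bb p.1 x * bb p.2 y) +
          ∑ p ∈ HasAntidiagonal.antidiagonal (n + 1), (p.2 : ℝ) * (bb p.1 x * bb p.2 y) := by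
        rw [← Finset.sum_add_distrib, Finset.mul_sum]
        refine Finset.sum_congr rfl fun p hp => ?_
        have : p.1 + p.2 = n + 1 := HasAntidiagonal.mem_antidiagonal.mp hp
        have h : (p.1 : ℝ) + p.2 = n + 1 := by exact_mod_cast this
        rw [← h]; ring
      rw [e1, h1, h2, ← Finset.sum_add_distrib, Finset.mul_sum]
      refine Finset.sum_congr rfl fun p hp => ?_
      have : p.1 + p.2 = n := HasAntidiagonal.mem_antidiagonal.mp hp
      have h : (p.1 : ℝ) + p.2 = n := by exact_mod_cast this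
      rw [← h]; ring
    rw [ih, ← bb_succ] at h3
    exact mul_left_cancel₀ (by positivity) h3

theorem bb_vand_range (n : ℕ) (x : ℝ) :
    ∑ i ∈ range (n + 1), bb i x * bb (n - i) x = bb n (2 * x) := by
  have := bb_vand n x x
  rw [Finset.Nat.sum_antidiagonal_eq_sum_range_succ_mk] at this
  rw [show 2 * x = x + x by ring, ← this]

theorem half_sum (r : ℕ) (x : ℝ) :
    ∑ i ∈ range (r + 1), bb i x * bb (2 * r + 1 - i) x = bb (2 * r + 1) (2 * x) / 2 := by
  have h := bb_vand_range (2 * r + 1) x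
  rw [show 2 * r + 1 + 1 = (r + 1) + (r + 1) by ring, Finset.sum_range_add] at h
  have h2 : ∑ i ∈ range (r + 1), bb (r + 1 + i) x * bb (2 * r + 1 - (r + 1 + i)) x =
      ∑ i ∈ range (r + 1), bb i x * bb (2 * r + 1 - i) x := by
    rw [← Finset.sum_range_reflect]
    refine Finset.sum_congr rfl fun i hi => ?_
    have hi' : i < r + 1 := Finset.mem_range.mp hi
    rw [show r + 1 + (r + 1 - 1 - i) = 2 * r + 1 - i by omega,
      show 2 * r + 1 - (2 * r + 1 - i) = i by omega]
    ring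
  rw [h2] at h
  linarith

theorem telescope (n : ℕ) (x : ℝ) (k : ℕ) (hk : k ≤ n) :
    x * ∑ i ∈ range k, ((n : ℝ) - 2 * i) * (bb i x * bb (n - i) x) =
      (k : ℝ) * (x + ((n - k : ℕ) : ℝ)) * (bb k x * bb (n - k) x) := by
  induction k with
  | zero => simp
  | succ k ih =>
    rw [Finset.sum_range_succ, mul_add, ih (by omega)]
    obtain ⟨d, hd⟩ : ∃ d, n = k + 1 + d := ⟨n - (k + 1), by omega⟩
    subst hd
    rw [show k + 1 + d - k = d + 1 by omega, show k + 1 + d - (k + 1) = d by omega]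
    have h1 := bb_succ k x
    have h2 := bb_succ d x
    push_cast
    have e : ((k : ℝ) + 1) * (x + d) * (bb (k + 1) x * bb d x) =
        (((k : ℝ) + 1) * bb (k + 1) x) * ((x + d) * bb d x) := by ring
    rw [e, h1, ← h2]
    ring

theorem prod_double (r : ℕ) (x : ℝ) :
    ∏ s ∈ range (2 * r + 1), (2 * x + (s : ℝ)) =
      2 * x * 4 ^ r * (∏ j ∈ range r, (x + ((j : ℝ) + 1))) * ∏ j ∈ range r, (x + ((j : ℝ) + 1 / 2)) := by
  induction r with
  | zero => simp
  | succ r ih =>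
    rw [show 2 * (r + 1) + 1 = 2 * r + 1 + 1 + 1 by ring, Finset.prod_range_succ,
      Finset.prod_range_succ, ih, Finset.prod_range_succ (fun j : ℕ => x + ((j : ℝ) + 1)),
      Finset.prod_range_succ (fun j : ℕ => x + ((j : ℝ) + 1 / 2))]
    push_cast
    ring

/-- The closed form, times `x`. -/
theorem closed_form (r : ℕ) (x : ℝ) :
    x * ∑ i ∈ range r, ((r : ℝ) - i) * (bb i x * bb (2 * r + 1 - i) x) =
      x * (x / 2 * (∏ j ∈ range r, (x + ((j : ℝ) + 1))) *
        ((∏ j ∈ range r, (x + ((j : ℝ) + 1))) / (r.factorial : ℝ) ^ 2 -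
          4 ^ r * (∏ j ∈ range r, (x + ((j : ℝ) + 1 / 2))) / ((2 * r + 1).factorial : ℝ))) := by
  set P := ∏ j ∈ range r, (x + ((j : ℝ) + 1)) with hP
  set R := ∏ j ∈ range r, (x + ((j : ℝ) + 1 / 2)) with hR
  have h1 : ∑ i ∈ range r, ((r : ℝ) - i) * (bb i x * bb (2 * r + 1 - i) x) =
      (∑ i ∈ range (r + 1), (((2 * r + 1 : ℕ) : ℝ) - 2 * i) * (bb i x * bb (2 * r + 1 - i) x) -
        ∑ i ∈ range (r + 1), bb i x * bb (2 * r + 1 - i) x) / 2 := by
    have e1 : ∑ i ∈ range (r + 1), (((2 * r + 1 : ℕ) : ℝ) - 2 * i) *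
        (bb i x * bb (2 * r + 1 - i) x) - ∑ i ∈ range (r + 1), bb i x * bb (2 * r + 1 - i) x =
        ∑ i ∈ range (r + 1), 2 * (((r : ℝ) - i) * (bb i x * bb (2 * r + 1 - i) x)) := by
      rw [← Finset.sum_sub_distrib]
      refine Finset.sum_congr rfl fun i _ => ?_
      push_cast; ring
    rw [e1, Finset.sum_range_succ, ← Finset.mul_sum]
    ring
  have h2 := telescope (2 * r + 1) x (r + 1) (by omega)
  rw [show 2 * r + 1 - (r + 1) = r by omega] at h2
  have h3 := half_sum r x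
  have h4 : ((r : ℝ) + 1) * bb (r + 1) x = x * P / (r.factorial : ℝ) := by
    unfold bb
    rw [Finset.prod_range_succ', Nat.factorial_succ]
    have e2 : ∏ k ∈ range r, (x + ((k + 1 : ℕ) : ℝ)) = P := by
      rw [hP]; refine Finset.prod_congr rfl fun j _ => ?_; push_cast; ring
    rw [e2]
    have f1 : ((r : ℝ) + 1) ≠ 0 := by positivity
    have f2 : ((r.factorial : ℕ) : ℝ) ≠ 0 := by positivity
    push_cast
    field_simp
    ring
  have h5 : (x + r) * bb r x = x * P / (r.factorial : ℝ) := by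
    rw [← bb_succ]; exact h4
  have h6 : bb (2 * r + 1) (2 * x) = 2 * x * 4 ^ r * P * R / ((2 * r + 1).factorial : ℝ) := by
    unfold bb
    rw [prod_double]
  rw [h1, h3, h6]
  have h7 : x * ∑ i ∈ range (r + 1), (((2 * r + 1 : ℕ) : ℝ) - 2 * i) *
      (bb i x * bb (2 * r + 1 - i) x) = (x * P / (r.factorial : ℝ)) * (x * P / (r.factorial : ℝ)) := by
    rw [h2]
    push_cast
    calc ((r : ℝ) + 1) * (x + r) * (bb (r + 1) x * bb r x)
        = (((r : ℝ) + 1) * bb (r + 1) x) * ((x + r) * bb r x) := by ring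
      _ = _ := by rw [h4, h5]
  rw [mul_div_assoc', mul_sub, h7]
  have f2 : ((r.factorial : ℕ) : ℝ) ≠ 0 := by positivity
  have f3 : (((2 * r + 1).factorial : ℕ) : ℝ) ≠ 0 := by positivity
  field_simp

end Q131.MC
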