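import Mathlib

/-!
Strongly log-concave real polynomials and products of linear factors.
-/

namespace Q131.MC

open Polynomial

/-- Non-negative coefficients, log-concave in the strong form. -/
def SLC (p : ℝ[X]) : Prop :=
  (∀ i, 0 ≤ p.coeff i) ∧
    ∀ i j, i ≤ j → p.coeff i * p.coeff (j + 2) ≤ p.coeff (i + 1) * p.coeff (j + 1)

theorem SLC.C {c : ℝ} (hc : 0 ≤ c) : SLC (C c) := by
  constructor
  · intro i
    rw [coeff_C]; split_ifs
    · exact hc
    · exact le_refl _
  · intro i j _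
    rw [coeff_C_succ, coeff_C_succ]
    simp

theorem SLC.mul_linear {p : ℝ[X]} (hp : SLC p) {ρ : ℝ} (hρ : 0 ≤ ρ) :
    SLC (p * (X + Polynomial.C ρ)) := by
  obtain ⟨h0, h1⟩ := hp
  have c0 : (p * (X + Polynomial.C ρ)).coeff 0 = ρ * p.coeff 0 := by
    rw [mul_add, coeff_add, coeff_mul_X_zero, coeff_mul_C]; ring
  have cs : ∀ i, (p * (X + Polynomial.C ρ)).coeff (i + 1) = p.coeff i + ρ * p.coeff (i + 1) := by
    intro i
    rw [mul_add, coeff_add, coeff_mul_X, coeff_mul_C]; ring
  constructor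
  · intro i
    rcases i with _ | i
    · rw [c0]; exact mul_nonneg hρ (h0 _)
    · rw [cs]; exact add_nonneg (h0 _) (mul_nonneg hρ (h0 _))
  · intro i j hij
    rcases i with _ | i
    · rw [c0, cs, cs, cs]
      have a1 := h1 0 j (Nat.zero_le _)
      have a2 := mul_nonneg (h0 0) (h0 j)
      have a3 := mul_nonneg hρ (mul_nonneg (h0 1) (h0 j))
      have a4 : 0 ≤ ρ ^ 2 * (p.coeff 1 * p.coeff (j + 1) - p.coeff 0 * p.coeff (j + 2)) := by
        apply mul_nonneg (sq_nonneg _)
        have : p.coeff 0 * p.coeff (j + 2) ≤ p.coeff (0 + 1) * p.coeff (j + 1) := a1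
        rw [zero_add] at this
        linarith
      rw [zero_add] at *
      nlinarith [a2, a3, a4]
    · obtain ⟨k, rfl⟩ : ∃ k, j = k + 1 := ⟨j - 1, by omega⟩
      rw [cs, cs, cs, cs]
      have b1 : p.coeff i * p.coeff (k + 2) ≤ p.coeff (i + 1) * p.coeff (k + 1) :=
        h1 i k (by omega)
      have b2 : p.coeff (i + 1) * p.coeff (k + 1 + 2) ≤ p.coeff (i + 1 + 1) * p.coeff (k + 1 + 1) :=
        h1 (i + 1) (k + 1) (by omega)
      have b3 : p.coeff i * p.coeff (k + 1 + 2) ≤ p.coeff (i + 1) * p.coeff (k + 1 + 1) :=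
        h1 i (k + 1) (by omega)
      have b4 : p.coeff (i + 1) * p.coeff (k + 2) ≤ p.coeff (i + 2) * p.coeff (k + 1) := by
        rcases Nat.lt_or_ge i k with h | h
        · exact h1 (i + 1) k (by omega)
        · have : i = k := by omega
          subst this
          linarith
      have e1 : k + 1 + 1 = k + 2 := rfl
      have e2 : i + 1 + 1 = i + 2 := rfl
      rw [e1, e2] at *
      have c1 : 0 ≤ ρ * (p.coeff (i + 2) * p.coeff (k + 1) - p.coeff i * p.coeff (k + 1 + 2)) := by
        apply mul_nonneg hρ; linarith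
      have c2 : 0 ≤ ρ ^ 2 * (p.coeff (i + 2) * p.coeff (k + 2)
          - p.coeff (i + 1) * p.coeff (k + 1 + 2)) := by
        apply mul_nonneg (sq_nonneg _); linarith
      nlinarith [b1, c1, c2]

theorem SLC.mul_prod {ι : Type*} (s : Finset ι) (f : ι → ℝ) (hf : ∀ i ∈ s, 0 ≤ f i) {p : ℝ[X]}
    (hp : SLC p) : SLC (p * ∏ i ∈ s, (X + Polynomial.C (f i))) := by
  classical
  induction s using Finset.induction_on with
  | empty => rw [Finset.prod_empty, mul_one]; exact hp
  | insert a s ha ih =>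
    rw [Finset.prod_insert ha, mul_comm (X + Polynomial.C (f a)), ← mul_assoc]
    exact (ih fun i hi => hf i (Finset.mem_insert_of_mem hi)).mul_linear
      (hf a (Finset.mem_insert_self _ _))

theorem SLC.lc {p : ℝ[X]} (hp : SLC p) (i : ℕ) :
    p.coeff i * p.coeff (i + 2) ≤ p.coeff (i + 1) ^ 2 := by
  have := hp.2 i i (le_refl _)
  nlinarith [this]

end Q131.MC
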