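import Pool.Agent.Q131.MC.Ident

/-!
Real-rootedness of the remaining factor and log-concavity of `S_n(m,1)`.
-/

namespace Q131.MC

open Polynomial Finset

/-- The polynomial `((m, a))`. -/
noncomputable def mc (a : ℕ) : ℚ[X] :=
  C (1 / (a.factorial : ℚ)) * ∏ s ∈ range a, (X + C (s : ℚ))

/-- `S_n(m,t)` for `n = 2 r + 1`, as a polynomial in `m` for each rational `t`. -/
noncomputable def S (r : ℕ) (t : ℚ) : ℚ[X] :=
  ∑ i ∈ range r, C (∑ s ∈ range (r - i), t ^ (i + 2 * s)) * (mc i * mc (2 * r + 1 - i))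

noncomputable def A1 (r : ℕ) : ℝ[X] := ∏ j ∈ range r, (X + C ((j : ℝ) + 1))
noncomputable def A2 (r : ℕ) : ℝ[X] := ∏ j ∈ range r, (X + C ((j : ℝ) + 1 / 2))

noncomputable def Q (r : ℕ) : ℝ[X] :=
  C (1 / (r.factorial : ℝ) ^ 2) * A1 r - C (4 ^ r / ((2 * r + 1).factorial : ℝ)) * A2 r

theorem eval_mc (a : ℕ) (x : ℝ) : ((mc a).map (algebraMap ℚ ℝ)).eval x = bb a x := by
  unfold mc bb
  rw [Polynomial.map_mul, Polynomial.map_C, Polynomial.map_prod, eval_mul, eval_C, eval_prod]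
  simp only [Polynomial.map_add, Polynomial.map_X, Polynomial.map_C, eval_add, eval_X, eval_C]
  simp only [map_div₀, map_one, map_natCast]
  rw [mul_comm, mul_one_div]

theorem eval_S (r : ℕ) (x : ℝ) : ((S r 1).map (algebraMap ℚ ℝ)).eval x =
    ∑ i ∈ range r, ((r : ℝ) - i) * (bb i x * bb (2 * r + 1 - i) x) := by
  unfold S
  rw [Polynomial.map_sum, eval_finsetSum]
  refine Finset.sum_congr rfl fun i hi => ?_
  rw [Polynomial.map_mul, Polynomial.map_mul, eval_mul, eval_mul, eval_mc, eval_mc,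
    Polynomial.map_C, eval_C]
  congr 1
  simp only [one_pow, Finset.sum_const, Finset.card_range, nsmul_eq_mul, mul_one, map_natCast]
  rw [Nat.cast_sub (Finset.mem_range.mp hi).le]

theorem S_eq (r : ℕ) : (S r 1).map (algebraMap ℚ ℝ) = C (1 / 2) * X * A1 r * Q r := by
  have h : X * (S r 1).map (algebraMap ℚ ℝ) = X * (C (1 / 2) * X * A1 r * Q r) := by
    apply Polynomial.funext
    intro x
    rw [eval_mul, eval_X, eval_S, closed_form]
    unfold Q A1 A2
    simp only [eval_mul, eval_X, eval_C, eval_sub, eval_prod, eval_add]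
    ring
  exact mul_left_cancel₀ X_ne_zero h

theorem fact_ineq (r : ℕ) (hr : 1 ≤ r) :
    4 ^ r * r.factorial ^ 2 < (2 * r + 1).factorial := by
  induction r, hr using Nat.le_induction with
  | base => decide
  | succ r _ ih =>
    rw [show 2 * (r + 1) + 1 = 2 * r + 1 + 1 + 1 by ring, Nat.factorial_succ (2 * r + 1 + 1),
      Nat.factorial_succ (2 * r + 1), Nat.factorial_succ r]
    have h1 : 4 * (r + 1) ^ 2 ≤ (2 * r + 1 + 1 + 1) * (2 * r + 1 + 1) := by nlinarith
    calc 4 ^ (r + 1) * ((r + 1) * r.factorial) ^ 2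
        = (4 * (r + 1) ^ 2) * (4 ^ r * r.factorial ^ 2) := by ring
      _ ≤ ((2 * r + 1 + 1 + 1) * (2 * r + 1 + 1)) * (4 ^ r * r.factorial ^ 2) :=
          Nat.mul_le_mul_right _ h1
      _ < ((2 * r + 1 + 1 + 1) * (2 * r + 1 + 1)) * (2 * r + 1).factorial :=
          Nat.mul_lt_mul_of_pos_left ih (by positivity)
      _ = _ := by ring

theorem A1_monic (r : ℕ) : (A1 r).Monic := monic_prod_of_monic _ _ fun _ _ => monic_X_add_C _
theorem A2_monic (r : ℕ) : (A2 r).Monic := monic_prod_of_monic _ _ fun _ _ => monic_X_add_C _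

theorem A1_deg (r : ℕ) : (A1 r).natDegree = r := by
  unfold A1
  rw [natDegree_prod_of_monic _ _ fun _ _ => monic_X_add_C _,
    Finset.sum_congr rfl (fun j _ => natDegree_X_add_C _)]
  simp
theorem A2_deg (r : ℕ) : (A2 r).natDegree = r := by
  unfold A2
  rw [natDegree_prod_of_monic _ _ fun _ _ => monic_X_add_C _,
    Finset.sum_congr rfl (fun j _ => natDegree_X_add_C _)]
  simp

theorem Q_coeff (r : ℕ) (hr : 1 ≤ r) : 0 < (Q r).coeff r := by
  unfold Q
  rw [coeff_sub, coeff_C_mul, coeff_C_mul]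
  have h1 : (A1 r).coeff r = 1 := by
    have := A1_monic r
    rw [Monic, leadingCoeff, A1_deg] at this; exact this
  have h2 : (A2 r).coeff r = 1 := by
    have := A2_monic r
    rw [Monic, leadingCoeff, A2_deg] at this; exact this
  rw [h1, h2, mul_one, mul_one, sub_pos, div_lt_div_iff₀ (by positivity) (by positivity), one_mul]
  exact_mod_cast fact_ineq r hr

theorem Q_natDegree (r : ℕ) (hr : 1 ≤ r) : (Q r).natDegree = r := by
  apply le_antisymm
  · unfold Q
    refine (natDegree_sub_le _ _).trans (max_le ?_ ?_)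
    · refine (natDegree_C_mul_le _ _).trans (A1_deg r).le
    · refine (natDegree_C_mul_le _ _).trans (A2_deg r).le
  · exact le_natDegree_of_ne_zero (Q_coeff r hr).ne'

/-- Sign of the second product at `-(k+1)`. -/
theorem sign_prod (k : ℕ) : ∀ t, t ≤ k + 1 →
    0 < (-1 : ℝ) ^ t * ∏ j ∈ range t, ((j : ℝ) + 1 / 2 - (k + 1)) := by
  intro t
  induction t with
  | zero => intro _; simp
  | succ t ih =>
    intro ht
    have ih' := ih (by omega)
    rw [Finset.prod_range_succ, pow_succ]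
    have h1 : ((t : ℝ) + 1 / 2 - (k + 1)) < 0 := by
      have : (t : ℝ) ≤ k := by exact_mod_cast (by omega : t ≤ k)
      linarith
    have : (-1 : ℝ) ^ t * -1 * ((∏ j ∈ range t, ((j : ℝ) + 1 / 2 - (k + 1))) *
        ((t : ℝ) + 1 / 2 - (k + 1))) =
        ((-1 : ℝ) ^ t * ∏ j ∈ range t, ((j : ℝ) + 1 / 2 - (k + 1))) *
          (-((t : ℝ) + 1 / 2 - (k + 1))) := by ring
    rw [this]
    exact mul_pos ih' (by linarith)

theorem sign_prod' (k : ℕ) (r : ℕ) (hr : k + 1 ≤ r) :
    0 < (-1 : ℝ) ^ (k + 1) * ∏ j ∈ range r, ((j : ℝ) + 1 / 2 - (k + 1)) := by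
  induction r, hr using Nat.le_induction with
  | base => exact sign_prod k (k + 1) (le_refl _)
  | succ r hr ih =>
    rw [Finset.prod_range_succ, ← mul_assoc]
    apply mul_pos ih
    have : ((k : ℝ) + 1) ≤ r := by exact_mod_cast hr
    linarith

theorem Q_eval (r k : ℕ) (hk : k < r) : 0 < (-1 : ℝ) ^ k * (Q r).eval (-((k : ℝ) + 1)) := by
  have h1 : (A1 r).eval (-((k : ℝ) + 1)) = 0 := by
    unfold A1
    rw [eval_prod]
    apply Finset.prod_eq_zero (Finset.mem_range.mpr hk)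
    rw [eval_add, eval_X, eval_C]; ring
  have h2 : (A2 r).eval (-((k : ℝ) + 1)) = ∏ j ∈ range r, ((j : ℝ) + 1 / 2 - (k + 1)) := by
    unfold A2
    rw [eval_prod]
    refine Finset.prod_congr rfl fun j _ => ?_
    rw [eval_add, eval_X, eval_C]; ring
  unfold Q
  rw [eval_sub, eval_mul, eval_mul, h1, h2, mul_zero, zero_sub, eval_C]
  have h3 := sign_prod' k r hk
  have h4 : (0 : ℝ) < 4 ^ r / ((2 * r + 1).factorial : ℝ) := by positivity
  have : (-1 : ℝ) ^ k * -(4 ^ r / ((2 * r + 1).factorial : ℝ) *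
      ∏ j ∈ range r, ((j : ℝ) + 1 / 2 - (k + 1))) =
      (4 ^ r / ((2 * r + 1).factorial : ℝ)) *
        ((-1 : ℝ) ^ (k + 1) * ∏ j ∈ range r, ((j : ℝ) + 1 / 2 - (k + 1))) := by
    rw [pow_succ]; ring
  rw [this]
  exact mul_pos h4 h3

theorem Q_zero (r : ℕ) (hr : 1 ≤ r) : 0 < (Q r).eval 0 := by
  have h1 : (A1 r).eval 0 = (r.factorial : ℝ) := by
    unfold A1
    rw [eval_prod]
    simp only [eval_add, eval_X, eval_C, zero_add]
    have := Finset.prod_range_add_one_eq_factorial r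
    rw [← this]; push_cast; rfl
  have h2 : 4 ^ r * (A2 r).eval 0 * (r.factorial : ℝ) = ((2 * r).factorial : ℝ) := by
    unfold A2
    rw [eval_prod]
    simp only [eval_add, eval_X, eval_C, zero_add]
    clear hr h1
    induction r with
    | zero => simp
    | succ r ih =>
      rw [Finset.prod_range_succ, show 2 * (r + 1) = 2 * r + 1 + 1 by ring,
        Nat.factorial_succ (2 * r + 1), Nat.factorial_succ (2 * r), Nat.factorial_succ r]
      push_cast
      rw [← ih]
      ring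
  unfold Q
  rw [eval_sub, eval_mul, eval_mul, eval_C, eval_C, h1, sub_pos]
  have f1 : (0 : ℝ) < (r.factorial : ℝ) := by positivity
  have f2 : (0 : ℝ) < ((2 * r).factorial : ℝ) := by positivity
  have e1 : (4 : ℝ) ^ r / ((2 * r + 1).factorial : ℝ) * (A2 r).eval 0 =
      1 / ((2 * (r : ℝ) + 1) * (r.factorial : ℝ)) := by
    rw [Nat.factorial_succ (2 * r)]
    push_cast
    rw [← h2]
    have f3 : (4 : ℝ) ^ r * (A2 r).eval 0 * (r.factorial : ℝ) ≠ 0 := by
      rw [h2]; positivity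
    have f4 : (A2 r).eval 0 ≠ 0 := by
      intro h; rw [h] at f3; simp at f3
    field_simp
  have e2 : 1 / (r.factorial : ℝ) ^ 2 * (r.factorial : ℝ) = 1 / (r.factorial : ℝ) := by
    field_simp
  rw [e1, e2]
  apply one_div_lt_one_div_of_lt f1
  have : (1 : ℝ) ≤ r := by exact_mod_cast hr
  nlinarith

theorem exists_root (r k : ℕ) (hk : k + 1 < r) :
    ∃ ρ : ℝ, (k : ℝ) + 1 < ρ ∧ ρ < k + 2 ∧ (Q r).eval (-ρ) = 0 := by
  have h1 := Q_eval r k (by omega)
  have h2 := Q_eval r (k + 1) hk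
  have hcont : ContinuousOn (fun ρ : ℝ => (-1 : ℝ) ^ k * (Q r).eval (-ρ))
      (Set.Icc ((k : ℝ) + 1) (k + 2)) := by
    apply Continuous.continuousOn
    exact continuous_const.mul ((Q r).continuous.comp continuous_neg)
  have hle : ((k : ℝ) + 1) ≤ k + 2 := by linarith
  have h3 := intermediate_value_Ioo' hle hcont
  have h4 : (0 : ℝ) ∈ Set.Ioo ((-1 : ℝ) ^ k * (Q r).eval (-((k : ℝ) + 2)))
      ((-1 : ℝ) ^ k * (Q r).eval (-((k : ℝ) + 1))) := by
    refine ⟨?_, h1⟩
    rw [pow_succ] at h2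
    push_cast at h2
    rw [show ((k : ℝ) + 1 + 1) = k + 2 by ring] at h2
    linarith
  obtain ⟨ρ, hρ, hρ0⟩ := h3 h4
  refine ⟨ρ, hρ.1, hρ.2, ?_⟩
  have h5 : (-1 : ℝ) ^ k ≠ 0 := by
    apply pow_ne_zero; norm_num
  exact (mul_eq_zero.mp hρ0).resolve_left h5

/-- The factorisation of `Q`. -/
theorem Q_factor (r : ℕ) (hr : 1 ≤ r) : ∃ (c τ : ℝ) (ρ : ℕ → ℝ), 0 ≤ c ∧ 0 ≤ τ ∧
    (∀ k, 0 ≤ ρ k) ∧ Q r = C c * (∏ k ∈ range (r - 1), (X + C (ρ k))) * (X + C τ) := by
  have hex : ∀ k : ℕ, ∃ ρ : ℝ, (k : ℝ) + 1 < ρ ∧ ρ < k + 2 ∧ (k + 1 < r → (Q r).eval (-ρ) = 0) := by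
    intro k
    by_cases hk : k + 1 < r
    · obtain ⟨ρ, h1, h2, h3⟩ := exists_root r k hk
      exact ⟨ρ, h1, h2, fun _ => h3⟩
    · exact ⟨k + 3 / 2, by linarith, by linarith, fun h => absurd h hk⟩
  choose ρ h1 h2 h3 using hex
  have hinj : Function.Injective (fun k => -ρ k) := by
    intro a b hab
    have hab' : ρ a = ρ b := neg_injective hab
    by_contra hne
    rcases Nat.lt_or_gt_of_ne hne with h | h
    · have : (a : ℝ) + 1 ≤ b := by exact_mod_cast h
      have := h2 a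
      have := h1 b
      linarith
    · have : (b : ℝ) + 1 ≤ a := by exact_mod_cast h
      have := h2 b
      have := h1 a
      linarith
  have hdvd : ∏ k ∈ range (r - 1), (X + C (ρ k)) ∣ Q r := by
    apply Finset.prod_dvd_of_coprime
    · intro a _ b _ hab
      have := Polynomial.pairwise_coprime_X_sub_C hinj hab
      simp only [Function.onFun, map_neg, sub_neg_eq_add] at this ⊢
      exact this
    · intro k hk
      have hk' : k + 1 < r := by
        have := Finset.mem_range.mp hk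
        omega
      have : X - C (-ρ k) ∣ Q r := Polynomial.dvd_iff_isRoot.mpr (h3 k hk')
      rwa [map_neg, sub_neg_eq_add] at this
  obtain ⟨q, hq⟩ := hdvd
  have hPmonic : (∏ k ∈ range (r - 1), (X + C (ρ k))).Monic :=
    monic_prod_of_monic _ _ fun _ _ => monic_X_add_C _
  have hPdeg : (∏ k ∈ range (r - 1), (X + C (ρ k))).natDegree = r - 1 := by
    rw [natDegree_prod_of_monic _ _ fun _ _ => monic_X_add_C _]
    simp
  have hQne : Q r ≠ 0 := by
    intro h
    have := Q_coeff r hr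
    rw [h, coeff_zero] at this
    exact lt_irrefl _ this
  have hqne : q ≠ 0 := by
    rintro rfl; rw [mul_zero] at hq; exact hQne hq
  have hdeg : q.natDegree = 1 := by
    have := hPmonic.natDegree_mul' hqne
    rw [← hq, Q_natDegree r hr, hPdeg] at this
    omega
  have hlead : q.coeff 1 = (Q r).coeff r := by
    have h5 : (Q r).leadingCoeff = q.leadingCoeff := by
      rw [hq, leadingCoeff_mul, hPmonic.leadingCoeff, one_mul]
    rw [leadingCoeff, leadingCoeff, Q_natDegree r hr, hdeg] at h5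
    exact h5.symm
  have hcpos : 0 < q.coeff 1 := by rw [hlead]; exact Q_coeff r hr
  have hqeq : q = C (q.coeff 1) * (X + C (q.coeff 0 / q.coeff 1)) := by
    have h6 := eq_X_add_C_of_natDegree_le_one hdeg.le
    rw [mul_add, ← C_mul, mul_div_cancel₀ _ hcpos.ne']
    exact h6
  have hτ : 0 ≤ q.coeff 0 / q.coeff 1 := by
    apply div_nonneg _ hcpos.le
    have h7 := Q_zero r hr
    rw [hq, eval_mul] at h7
    have h8 : 0 < (∏ k ∈ range (r - 1), (X + C (ρ k))).eval 0 := by
      rw [eval_prod]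
      apply Finset.prod_pos
      intro k _
      rw [eval_add, eval_X, eval_C, zero_add]
      have := h1 k
      have h0 : (0 : ℝ) ≤ k := Nat.cast_nonneg k
      linarith
    have h9 : 0 < q.eval 0 := (mul_pos_iff_of_pos_left h8).mp h7
    rw [← coeff_zero_eq_eval_zero] at h9
    exact h9.le
  refine ⟨q.coeff 1, q.coeff 0 / q.coeff 1, ρ, hcpos.le, hτ, ?_, ?_⟩
  · intro k
    have := h1 k
    have h0 : (0 : ℝ) ≤ k := Nat.cast_nonneg k
    linarith
  · conv_lhs => rw [hq, hqeq]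
    ring

theorem SLC_S (r : ℕ) (hr : 1 ≤ r) : SLC ((S r 1).map (algebraMap ℚ ℝ)) := by
  obtain ⟨c, τ, ρ, hc, hτ, hρ, hQ⟩ := Q_factor r hr
  have e : (S r 1).map (algebraMap ℚ ℝ) =
      C (1 / 2 * c) * (X + C 0) * (∏ j ∈ range r, (X + C ((j : ℝ) + 1))) *
        (∏ k ∈ range (r - 1), (X + C (ρ k))) * (X + C τ) := by
    rw [S_eq, hQ, C_mul, C_0, add_zero]
    unfold A1
    ring
  rw [e]
  have s0 : SLC (C (1 / 2 * c)) := SLC.C (by positivity)
  have s1 := s0.mul_linear (le_refl (0 : ℝ))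
  have s2 := SLC.mul_prod (range r) (fun j => (j : ℝ) + 1) (fun j _ => by positivity) s1
  have s3 := SLC.mul_prod (range (r - 1)) ρ (fun k _ => hρ k) s2
  exact s3.mul_linear hτ

theorem main (r : ℕ) (hr : 1 ≤ r) (l : ℕ) :
    (S r 1).coeff l * (S r 1).coeff (l + 2) ≤ (S r 1).coeff (l + 1) ^ 2 := by
  have h := (SLC_S r hr).lc l
  rw [coeff_map, coeff_map, coeff_map] at h
  have h' : (((S r 1).coeff l * (S r 1).coeff (l + 2) : ℚ) : ℝ) ≤
      (((S r 1).coeff (l + 1) ^ 2 : ℚ) : ℝ) := by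
    push_cast
    exact h
  exact_mod_cast h'

end Q131.MC
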